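import Pool.Agent.WCT.Graph

set_option autoImplicit false

/-! Expansions at `z = 1` of the ratios of rooted trees. -/

namespace Pool.Agent.WCT

open Complex

/-- `A (1 - y) = B (1 - y) * R * exp (U y)` for `|y| ≤ δ`, and `U y = L y` up to `E |y| ^ 2`. -/
structure Expn (A B : ℂ → ℂ) (R L E δ : ℝ) (U : ℂ → ℂ) : Prop where
  hR : 0 < R
  rel : ∀ y : ℂ, ‖y‖ ≤ δ → A (1 - y) = B (1 - y) * (R * exp (U y))
  ne : ∀ y : ℂ, ‖y‖ ≤ δ → B (1 - y) ≠ 0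
  diff : ∀ y : ℂ, ‖y‖ ≤ δ → DifferentiableAt ℂ U y
  err : ∀ y : ℂ, ‖y‖ ≤ δ → ‖U y - L * y‖ ≤ E * ‖y‖ ^ 2

lemma log_sub_bound {y : ℂ} (hy : ‖y‖ ≤ 1 / 4) : ‖log (1 - y) + y‖ ≤ ‖y‖ ^ 2 := by
  have h := norm_log_one_add_sub_self_le (z := -y) (by rw [norm_neg]; linarith)
  rw [norm_neg] at h
  have h1 : log (1 + -y) - -y = log (1 - y) + y := by ring_nf
  rw [h1] at h
  refine h.trans ?_
  have h2 : (1 - ‖y‖)⁻¹ ≤ 4 / 3 := by
    rw [inv_le_comm₀ (by linarith) (by norm_num)]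
    linarith
  nlinarith [sq_nonneg ‖y‖]

lemma inner_bound {U : ℂ} {p : ℝ} (hU : ‖U‖ ≤ 1 / 4) (hp : 0 ≤ p) (hp2 : p ≤ 1 / 2) :
    ‖(p : ℂ) * (exp U - 1)‖ ≤ 1 / 4 ∧
      ‖log (1 + (p : ℂ) * (exp U - 1)) - p * U‖ ≤ 3 * p * ‖U‖ ^ 2 := by
  have h1 : ‖exp U - 1‖ ≤ 2 * ‖U‖ := norm_exp_sub_one_le (by linarith)
  have h2 : ‖exp U - 1 - U‖ ≤ ‖U‖ ^ 2 := norm_exp_sub_one_sub_id_le (by linarith)
  have h3 : ‖(p : ℂ) * (exp U - 1)‖ = p * ‖exp U - 1‖ := by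
    rw [norm_mul, Complex.norm_real, Real.norm_of_nonneg hp]
  have h4 : ‖(p : ℂ) * (exp U - 1)‖ ≤ 2 * p * ‖U‖ := by
    rw [h3]; nlinarith
  have h0 := norm_nonneg U
  have h5 : ‖(p : ℂ) * (exp U - 1)‖ ≤ 1 / 4 := by nlinarith
  refine ⟨h5, ?_⟩
  have h6 := norm_log_one_add_sub_self_le (z := (p : ℂ) * (exp U - 1)) (by linarith)
  set w := (p : ℂ) * (exp U - 1) with hw
  have h7 : (1 - ‖w‖)⁻¹ ≤ 4 / 3 := by
    rw [inv_le_comm₀ (by linarith) (by norm_num)]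
    linarith
  have h8 : ‖log (1 + w) - w‖ ≤ ‖w‖ ^ 2 := by
    refine h6.trans ?_
    nlinarith [sq_nonneg ‖w‖]
  have h9 : ‖w‖ ^ 2 ≤ 2 * p * ‖U‖ ^ 2 := by
    have h10 : ‖w‖ ^ 2 ≤ (2 * p * ‖U‖) ^ 2 := pow_le_pow_left₀ (norm_nonneg _) h4 2
    have h11 : (2 * p * ‖U‖) ^ 2 = 4 * p * (p * ‖U‖ ^ 2) := by ring
    have h12 : 0 ≤ p * ‖U‖ ^ 2 := by positivity
    nlinarith
  have h13 : ‖w - p * U‖ ≤ p * ‖U‖ ^ 2 := by
    have : w - p * U = (p : ℂ) * (exp U - 1 - U) := by rw [hw]; ring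
    rw [this, norm_mul, Complex.norm_real, Real.norm_of_nonneg hp]
    exact mul_le_mul_of_nonneg_left h2 hp
  calc ‖log (1 + w) - p * U‖ = ‖(log (1 + w) - w) + (w - p * U)‖ := by ring_nf
    _ ≤ ‖log (1 + w) - w‖ + ‖w - p * U‖ := norm_add_le _ _
    _ ≤ _ := by linarith

/-- the new logarithm after grafting `d` copies to a single vertex -/
noncomputable def stepU (p : ℝ) (d : ℕ) (U : ℂ → ℂ) (y : ℂ) : ℂ :=
  log (1 - y) - d * log (1 + (p : ℂ) * (exp (U y) - 1))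

lemma slit_of_small {w : ℂ} (h : ‖w‖ ≤ 1 / 4) : 1 + w ∈ slitPlane := by
  left
  have h1 := Complex.abs_re_le_norm w
  have h2 := abs_le.1 h1
  simp only [add_re, one_re]
  linarith

lemma Expn.step {A B : ℂ → ℂ} {R L E δ : ℝ} {U : ℂ → ℂ} (h : Expn A B R L E δ U) (hR1 : R ≤ 1)
    (d : ℕ) (M δ' : ℝ) (hδ : δ' ≤ δ) (hδ4 : δ' ≤ 1 / 4) 
    (hM : ∀ y : ℂ, ‖y‖ ≤ δ' → ‖U y‖ ≤ M * ‖y‖) (hM4 : ∀ y : ℂ, ‖y‖ ≤ δ' → ‖U y‖ ≤ 1 / 4) :
    Expn (fun x => x * B x ^ d) (fun x => 1 * (A x + B x) ^ d) ((1 + R)⁻¹ ^ d)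
      (-1 - d * (R / (1 + R)) * L)
      (1 + d * (R / (1 + R)) * E + 3 * (d * (R / (1 + R))) * M ^ 2) δ'
      (stepU (R / (1 + R)) d U) := by
  have hR := h.hR
  have hRp : 0 < 1 + R := by linarith
  set p := R / (1 + R) with hp
  have hp0 : 0 ≤ p := by positivity
  have hp2 : p ≤ 1 / 2 := by
    rw [hp, div_le_iff₀ hRp]; linarith
  have hin : ∀ y : ℂ, ‖y‖ ≤ δ' → ‖(p : ℂ) * (exp (U y) - 1)‖ ≤ 1 / 4 ∧
      ‖log (1 + (p : ℂ) * (exp (U y) - 1)) - p * U y‖ ≤ 3 * p * ‖U y‖ ^ 2 := fun y hy =>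
    inner_bound (hM4 y hy) hp0 hp2
  have hsl : ∀ y : ℂ, ‖y‖ ≤ δ' → 1 + (p : ℂ) * (exp (U y) - 1) ∈ slitPlane := fun y hy =>
    slit_of_small (hin y hy).1
  have hsl2 : ∀ y : ℂ, ‖y‖ ≤ δ' → 1 - y ∈ slitPlane := fun y hy => by
    rw [sub_eq_add_neg]
    exact slit_of_small (by rw [norm_neg]; linarith)
  have hfac : ∀ y : ℂ, ‖y‖ ≤ δ' → A (1 - y) + B (1 - y) =
      B (1 - y) * ((1 + R) * (1 + (p : ℂ) * (exp (U y) - 1))) := by
    intro y hy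
    rw [h.rel y (hy.trans hδ)]
    have h1 : (1 + (R : ℂ)) ≠ 0 := by exact_mod_cast hRp.ne'
    have h2 : (p : ℂ) = R / (1 + R) := by rw [hp]; push_cast; rfl
    rw [h2]
    field_simp
    ring
  refine ⟨by positivity, ?_, ?_, ?_, ?_⟩
  · intro y hy
    simp only [one_mul]
    rw [hfac y hy]
    have h1 : exp (stepU p d U y) = (1 - y) * ((1 + (p : ℂ) * (exp (U y) - 1)) ^ d)⁻¹ := by
      unfold stepU
      rw [exp_sub, exp_log (slitPlane_ne_zero (hsl2 y hy)), exp_nat_mul,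
        exp_log (slitPlane_ne_zero (hsl y hy)), div_eq_mul_inv]
    rw [h1]
    have h2 : (1 + (p : ℂ) * (exp (U y) - 1)) ^ d ≠ 0 := pow_ne_zero _ (slitPlane_ne_zero (hsl y hy))
    have h3 : (1 + (R : ℂ)) ^ d ≠ 0 := pow_ne_zero _ (by exact_mod_cast hRp.ne')
    push_cast
    rw [mul_pow, mul_pow, inv_pow]
    field_simp
  · intro y hy
    simp only [one_mul]
    rw [hfac y hy]
    refine pow_ne_zero _ (mul_ne_zero (h.ne y (hy.trans hδ)) (mul_ne_zero ?_ ?_))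
    · exact_mod_cast hRp.ne'
    · exact slitPlane_ne_zero (hsl y hy)
  · intro y hy
    unfold stepU
    have h1 := h.diff y (hy.trans hδ)
    refine DifferentiableAt.sub ?_ (DifferentiableAt.const_mul ?_ _)
    · exact DifferentiableAt.clog (by fun_prop) (hsl2 y hy)
    · exact DifferentiableAt.clog
        ((differentiableAt_const _).add ((h1.cexp.sub_const 1).const_mul _)) (hsl y hy)
  · intro y hy
    have h1 := log_sub_bound (y := y) (hy.trans hδ4)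
    have h2 := (hin y hy).2
    have h3 := h.err y (hy.trans hδ)
    have h4 : ‖U y‖ ^ 2 ≤ M ^ 2 * ‖y‖ ^ 2 := by
      rw [← mul_pow]
      exact pow_le_pow_left₀ (norm_nonneg _) (hM y hy) 2
    have h5 : stepU p d U y - ((-1 - d * p * L : ℝ) : ℂ) * y =
        (log (1 - y) + y) - d * (log (1 + (p : ℂ) * (exp (U y) - 1)) - p * U y) -
          (d * p) * (U y - L * y) := by
      unfold stepU
      push_cast
      ring
    rw [h5]
    have h6 : ‖(d : ℂ) * (log (1 + (p : ℂ) * (exp (U y) - 1)) - p * U y)‖ ≤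
        d * (3 * p * ‖U y‖ ^ 2) := by
      rw [norm_mul, Complex.norm_natCast]
      exact mul_le_mul_of_nonneg_left h2 (Nat.cast_nonneg _)
    have h7 : ‖((d : ℂ) * p) * (U y - L * y)‖ ≤ d * p * (E * ‖y‖ ^ 2) := by
      rw [norm_mul, norm_mul, Complex.norm_natCast, Complex.norm_real, Real.norm_of_nonneg hp0]
      exact mul_le_mul_of_nonneg_left h3 (by positivity)
    have h8 : (d : ℝ) * (3 * p * ‖U y‖ ^ 2) ≤ d * (3 * p * (M ^ 2 * ‖y‖ ^ 2)) := by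
      have : (0 : ℝ) ≤ d := Nat.cast_nonneg _
      gcongr
    calc _ ≤ ‖(log (1 - y) + y) - d * (log (1 + (p : ℂ) * (exp (U y) - 1)) - p * U y)‖ +
          ‖((d : ℂ) * p) * (U y - L * y)‖ := norm_sub_le _ _
      _ ≤ (‖log (1 - y) + y‖ + ‖(d : ℂ) * (log (1 + (p : ℂ) * (exp (U y) - 1)) - p * U y)‖) +
          ‖((d : ℂ) * p) * (U y - L * y)‖ := by
          gcongr
          exact norm_sub_le _ _
      _ ≤ _ := by nlinarith

lemma Expn.norm_le {A B : ℂ → ℂ} {R L E δ : ℝ} {U : ℂ → ℂ} (h : Expn A B R L E δ U) {y : ℂ}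
    (hy : ‖y‖ ≤ δ) : ‖U y‖ ≤ |L| * ‖y‖ + E * ‖y‖ ^ 2 := by
  have h1 := h.err y hy
  have h2 : ‖(L : ℂ) * y‖ = |L| * ‖y‖ := by rw [norm_mul, Complex.norm_real, Real.norm_eq_abs]
  calc ‖U y‖ = ‖(U y - L * y) + L * y‖ := by ring_nf
    _ ≤ ‖U y - L * y‖ + ‖(L : ℂ) * y‖ := norm_add_le _ _
    _ ≤ _ := by linarith

/-- soft version of the step -/
lemma Expn.soft {A B : ℂ → ℂ} {R L E δ : ℝ} {U : ℂ → ℂ} (h : Expn A B R L E δ U) (hR1 : R ≤ 1)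
    (hE : 0 ≤ E) (hδ : 0 < δ) (d : ℕ) : ∃ E' δ' U', 0 ≤ E' ∧ 0 < δ' ∧
    Expn (fun x => x * B x ^ d) (fun x => 1 * (A x + B x) ^ d) ((1 + R)⁻¹ ^ d)
      (-1 - d * (R / (1 + R)) * L) E' δ' U' := by
  set M := |L| + E with hM
  have hM0 : 0 ≤ M := by positivity
  set δ' := min δ (1 / (4 * (M + 1))) with hδ'
  have h1 : δ' ≤ δ := min_le_left _ _
  have h2 : δ' ≤ 1 / (4 * (M + 1)) := min_le_right _ _
  have h3 : 1 / (4 * (M + 1)) ≤ 1 / 4 := by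
    apply one_div_le_one_div_of_le (by norm_num)
    nlinarith
  have h4 : ∀ y : ℂ, ‖y‖ ≤ δ' → ‖U y‖ ≤ M * ‖y‖ := by
    intro y hy
    have h5 := h.norm_le (hy.trans h1)
    have h6 : ‖y‖ ≤ 1 := by linarith
    have h7 := norm_nonneg y
    nlinarith [mul_nonneg hE (mul_nonneg h7 (sub_nonneg.2 h6))]
  have h5 : ∀ y : ℂ, ‖y‖ ≤ δ' → ‖U y‖ ≤ 1 / 4 := by
    intro y hy
    have h6 := h4 y hy
    have h7 : M * ‖y‖ ≤ M * (1 / (4 * (M + 1))) := mul_le_mul_of_nonneg_left (hy.trans h2) hM0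
    have h8 : M * (1 / (4 * (M + 1))) ≤ 1 / 4 := by
      rw [mul_one_div, div_le_iff₀ (by positivity)]
      linarith
    linarith
  have hR := h.hR
  refine ⟨_, δ', _, ?_, lt_min hδ (by positivity),
    h.step hR1 d M δ' h1 (h2.trans h3) h4 h5⟩
  positivity

lemma Expn.base : Expn (fun x => x) (fun _ => 1) 1 (-1) 1 (1 / 4) (fun y => log (1 - y)) := by
  have hs : ∀ y : ℂ, ‖y‖ ≤ 1 / 4 → 1 - y ∈ slitPlane := fun y hy => by
    rw [sub_eq_add_neg]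
    exact slit_of_small (by rw [norm_neg]; linarith)
  refine ⟨one_pos, ?_, fun _ _ => one_ne_zero, ?_, ?_⟩
  · intro y hy
    rw [exp_log (slitPlane_ne_zero (hs y hy))]
    push_cast
    ring
  · intro y hy
    exact DifferentiableAt.clog (by fun_prop) (hs y hy)
  · intro y hy
    have := log_sub_bound hy
    push_cast
    rw [one_mul]
    convert this using 2
    ring

end Pool.Agent.WCT
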