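import Pool.Agent.WCT.Good

set_option autoImplicit false

/-! A root close to `z = 1`. -/

namespace Pool.Agent.WCT

open Complex

lemma lam_bound {c : ℂ} {m : ℕ} {ρ : ℝ} (hc : ‖c‖ ≤ 4.2) (hc2 : 2 ≤ c.im) (hm : 100 ≤ m)
    (h1 : 1 ≤ m * ρ) (h2 : m * ρ ≤ 2) :
    0 < ((exp (c / m) - 1) / ρ).im ∧ ‖log ((exp (c / m) - 1) / ρ)‖ ≤ 7 := by
  have hm0 : (0 : ℝ) < m := by
    have : (100 : ℝ) ≤ m := by exact_mod_cast hm
    linarith
  have hm100 : (100 : ℝ) ≤ m := by exact_mod_cast hm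
  have hmc : (m : ℂ) ≠ 0 := by exact_mod_cast hm0.ne'
  have hρ : 0 < ρ := by
    by_contra h
    push Not at h
    nlinarith
  have hρc : (ρ : ℂ) ≠ 0 := by exact_mod_cast hρ.ne'
  set w : ℂ := m * (exp (c / m) - 1) with hw
  have hcm : ‖c / m‖ ≤ 0.042 := by
    rw [norm_div, Complex.norm_natCast, div_le_iff₀ hm0]
    linarith
  have h3 : ‖w - c‖ ≤ 0.1764 := by
    have h4 : w - c = m * (exp (c / m) - 1 - c / m) := by
      rw [hw]; field_simp
    rw [h4, norm_mul, Complex.norm_natCast]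
    have h5 := norm_exp_sub_one_sub_id_le (x := c / m) (by linarith)
    have h6 : ‖c / m‖ = ‖c‖ / m := by rw [norm_div, Complex.norm_natCast]
    have h7 : (m : ℝ) * ‖exp (c / m) - 1 - c / m‖ ≤ m * (‖c / m‖ ^ 2) :=
      mul_le_mul_of_nonneg_left h5 hm0.le
    have h8 : (m : ℝ) * ‖c / m‖ ^ 2 = ‖c‖ * ‖c / m‖ := by
      rw [h6]; field_simp
    rw [h8] at h7
    nlinarith [norm_nonneg c, norm_nonneg (c / m)]
  have h4 : 1.8 ≤ w.im := by
    have h5 := Complex.abs_im_le_norm (w - c)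
    have h6 := (abs_le.1 (h5.trans h3)).1
    simp only [sub_im] at h6
    linarith
  have h5 : ‖w‖ ≤ 4.4 := by
    calc ‖w‖ = ‖(w - c) + c‖ := by ring_nf
      _ ≤ ‖w - c‖ + ‖c‖ := norm_add_le _ _
      _ ≤ _ := by linarith
  have h6 : (exp (c / m) - 1) / ρ = w / ((m * ρ : ℝ) : ℂ) := by
    rw [hw]
    push_cast
    field_simp
  have hmρ : 0 < m * ρ := by linarith
  rw [h6]
  have h7 : (w / ((m * ρ : ℝ) : ℂ)).im = w.im / (m * ρ) := Complex.div_ofReal_im w _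
  refine ⟨by rw [h7]; exact div_pos (by linarith) hmρ, ?_⟩
  set u := w / ((m * ρ : ℝ) : ℂ) with hu
  have h8 : ‖u‖ = ‖w‖ / (m * ρ) := by
    rw [hu, norm_div, Complex.norm_real, Real.norm_of_nonneg hmρ.le]
  have h9 : ‖u‖ ≤ 4.4 := by
    rw [h8, div_le_iff₀ hmρ]
    nlinarith [norm_nonneg w]
  have h10 : 0.9 ≤ ‖u‖ := by
    rw [h8, le_div_iff₀ hmρ]
    have := (Complex.abs_im_le_norm w)
    have := (le_abs_self w.im)
    nlinarith
  have h11 := Complex.norm_le_abs_re_add_abs_im (log u)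
  rw [Complex.log_re, Complex.log_im] at h11
  have h12 := Complex.abs_arg_le_pi u
  have h13 : |Real.log ‖u‖| ≤ 3.4 := by
    rw [abs_le]
    constructor
    · have := Real.one_sub_inv_le_log_of_pos (x := ‖u‖) (by linarith)
      have h14 : ‖u‖⁻¹ ≤ (0.9)⁻¹ := inv_anti₀ (by norm_num) h10
      have h15 : ((0.9 : ℝ))⁻¹ ≤ 2 := by norm_num
      linarith
    · have := Real.log_le_sub_one_of_pos (x := ‖u‖) (by linarith)
      linarith
  have := Real.pi_lt_d2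
  linarith

lemma star_ratio {t : ℕ} (ht : 1 ≤ t) {y : ℂ} (hy : ‖y‖ ≤ 1 / 100) :
    (1 - y + 1) ^ t ≠ 0 ∧ ‖(1 - y) / (1 - y + 1) ^ t‖ ≤ 0.51 := by
  have h1 : (1.99 : ℝ) ≤ ‖1 - y + 1‖ := by
    have h2 : ‖(2 : ℂ)‖ ≤ ‖1 - y + 1‖ + ‖y‖ := by
      calc ‖(2 : ℂ)‖ = ‖(1 - y + 1) + y‖ := by ring_nf
        _ ≤ _ := norm_add_le _ _
    rw [Complex.norm_two] at h2
    linarith
  have h2 : (1.99 : ℝ) ≤ ‖(1 - y + 1) ^ t‖ := by
    rw [norm_pow]
    calc (1.99 : ℝ) ≤ ‖1 - y + 1‖ := h1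
      _ = ‖1 - y + 1‖ ^ 1 := (pow_one _).symm
      _ ≤ ‖1 - y + 1‖ ^ t := pow_le_pow_right₀ (by linarith) ht
  have h3 : ‖1 - y‖ ≤ 1.01 := by
    calc ‖1 - y‖ ≤ ‖(1 : ℂ)‖ + ‖y‖ := norm_sub_le _ _
      _ ≤ _ := by rw [norm_one]; linarith
  refine ⟨?_, ?_⟩
  · intro h
    rw [h, norm_zero] at h2
    linarith
  · rw [norm_div, div_le_iff₀ (by linarith)]
    nlinarith

lemma log_one_add_small {v : ℂ} (hv : ‖v‖ ≤ 0.51) : ‖log (1 + v)‖ ≤ 0.8 := by
  have h := norm_log_one_add_le (z := v) (by linarith)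
  refine h.trans ?_
  have h2 : (1 - ‖v‖)⁻¹ ≤ 2.05 := by
    rw [inv_le_comm₀ (by linarith) (by norm_num)]
    norm_num
    linarith
  have h3 : ‖v‖ ^ 2 ≤ 0.51 ^ 2 := pow_le_pow_left₀ (norm_nonneg _) hv 2
  have h4 : ‖v‖ ^ 2 * (1 - ‖v‖)⁻¹ ≤ 0.51 ^ 2 * 2.05 :=
    mul_le_mul h3 h2 (by
      apply inv_nonneg.2; linarith) (by norm_num)
  norm_num at h4 ⊢
  linarith

lemma alg_final (y v Bk D E : ℂ) (m : ℕ) (Z : ℂ) (hZ : Z = D * (1 + v))
    (hexpc : E ^ m = -(1 - y) / (1 + v)) (h1v0 : 1 + v ≠ 0) :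
    (1 - y) * (1 * Bk) ^ m * (1 * D) + 1 * (1 * Bk * (E - 1) + 1 * Bk) ^ m * Z = 0 := by
  have h1 : 1 * Bk * (E - 1) + 1 * Bk = Bk * E := by ring
  have h2 : (1 + v) * (-(1 - y) / (1 + v)) = -(1 - y) := by field_simp
  rw [h1, mul_pow Bk E, hexpc, one_mul Bk, hZ]
  calc (1 - y) * Bk ^ m * (1 * D) + 1 * (Bk ^ m * (-(1 - y) / (1 + v))) * (D * (1 + v))
      = (1 - y) * Bk ^ m * D + Bk ^ m * D * ((1 + v) * (-(1 - y) / (1 + v))) := by ring
    _ = 0 := by rw [h2]; ring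

theorem final_root {K η : ℝ} (hK : 13 ≤ K) (hη : 0 < η) (hKη : K * η ≤ 1 / 8)
    (hη2 : η ≤ 1 / 104) {N : ℕ} (hG : Good K η N) (k : ℕ) (hk : 12000 / η ≤ k) :
    ∃ m : ℕ, (m : ℝ) ≤ (17 / 16) ^ k + 1 ∧ ∀ t : ℕ, 1 ≤ t →
      ∃ (V : Type) (_ : Fintype V) (G : SimpleGraph V), G.IsTree ∧ WellCovered G ∧
        Fintype.card V = 2 * ((1 + m * (1 + k * N)) + (1 + t * 1)) ∧
        ∃ x : ℂ, indepEval G x = 0 ∧ (N : ℝ) ≤ ‖x‖ ^ 4 := by
  obtain ⟨hN, A, B, R, L, Q, U, hP, hR1, hR2, hL1, hL2, hNQ, hE⟩ := hG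
  have hQ : 8 / 3 ≤ Q := by linarith
  set r := η / Q with hr
  have hr0 : 0 < r := by positivity
  have hrη : r ≤ η := div_le_self hη.le (by linarith)
  have hQr : Q * r = η := by rw [hr]; field_simp
  have hk1 : (12000 : ℝ) ≤ k * η := by
    rwa [div_le_iff₀ hη] at hk
  have hk2 : (12000 : ℝ) ≤ k := by nlinarith [Nat.cast_nonneg (α := ℝ) k]
  have hM : ∀ y : ℂ, ‖y‖ ≤ r → ‖U y‖ ≤ (2 * Q) * ‖y‖ := fun y hy =>
    U_small hE hL2 (by linarith) (by linarith) hKη hy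
  have hQy : ∀ y : ℂ, ‖y‖ ≤ r → Q * ‖y‖ ≤ η := fun y hy => by
    rw [← hQr]; exact mul_le_mul_of_nonneg_left hy (by linarith)
  have hM6 : ∀ y : ℂ, ‖y‖ ≤ r → ‖U y‖ ≤ 1 / 6 := fun y hy => by
    have := hM y hy
    have := hQy y hy
    nlinarith
  have hst := hE.step (by linarith) k (2 * Q) r le_rfl (by linarith) hM
    (fun y hy => (hM6 y hy).trans (by norm_num))
  set p := R / (1 + R) with hp
  have hRpos : 0 < R := by linarith
  have hp0 : 0 ≤ p := by positivity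
  have hp18 : 1 / 18 ≤ p := by
    rw [hp, le_div_iff₀ (by linarith)]; linarith
  have hp2 : p ≤ 1 / 2 := by
    rw [hp, div_le_iff₀ (by linarith)]; linarith
  set ρ : ℝ := (1 + R)⁻¹ ^ k with hρ
  set m : ℕ := ⌈(1 + R) ^ k⌉₊ with hm
  have hρ1 : ρ * (1 + R) ^ k = 1 := by
    rw [hρ, ← mul_pow, inv_mul_cancel₀ (by linarith), one_pow]
  have hρ0 : 0 < ρ := by positivity
  have hbern : 100 ≤ (1 + R) ^ k := by
    have h1 := one_add_mul_le_pow (a := R) (by linarith) k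
    nlinarith
  have hm1 : (1 + R) ^ k ≤ m := Nat.le_ceil _
  have hm2 : (m : ℝ) ≤ (1 + R) ^ k + 1 := (Nat.ceil_lt_add_one (by positivity)).le
  have hm100 : 100 ≤ m := by
    have : (100 : ℝ) ≤ m := hbern.trans hm1
    exact_mod_cast this
  have hmρ1 : 1 ≤ m * ρ := by
    calc (1 : ℝ) = (1 + R) ^ k * ρ := by rw [mul_comm]; exact hρ1.symm
      _ ≤ _ := mul_le_mul_of_nonneg_right hm1 hρ0.le
  have hρle : ρ ≤ 1 := by
    rw [hρ]
    apply pow_le_one₀ (by positivity)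
    apply inv_le_one_of_one_le₀
    linarith
  have hmρ2 : m * ρ ≤ 2 := by
    calc (m : ℝ) * ρ ≤ ((1 + R) ^ k + 1) * ρ := mul_le_mul_of_nonneg_right hm2 hρ0.le
      _ = 1 + ρ := by rw [add_mul, mul_comm _ ρ, hρ1, one_mul]
      _ ≤ 2 := by linarith
  refine ⟨m, ?_, ?_⟩
  · refine hm2.trans ?_
    have : (1 + R) ^ k ≤ (17 / 16) ^ k := pow_le_pow_left₀ (by linarith) (by linarith) k
    linarith
  intro t ht
  -- the functions
  set v : ℂ → ℂ := fun y => (1 - y) / (1 - y + 1) ^ t with hv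
  set e : ℂ → ℂ := fun y => log (1 + v y) with he
  set c : ℂ → ℂ := fun y => Real.pi * I + log (1 - y) - e y with hc
  set lam : ℂ → ℂ := fun y => log ((exp (c y / m) - 1) / ρ) with hlam
  set Ψ : ℂ → ℂ := fun y => stepU p k U y - lam y with hΨ
  have hy100 : ∀ y : ℂ, ‖y‖ ≤ r → ‖y‖ ≤ 1 / 100 := fun y hy => by linarith
  have hlog : ∀ y : ℂ, ‖y‖ ≤ r → ‖log (1 - y)‖ ≤ 0.02 := by
    intro y hy
    have h1 := log_sub_bound (y := y) (by linarith [hy100 y hy])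
    have h2 := hy100 y hy
    have h3 : ‖log (1 - y)‖ ≤ ‖log (1 - y) + y‖ + ‖y‖ := by
      calc ‖log (1 - y)‖ = ‖(log (1 - y) + y) - y‖ := by ring_nf
        _ ≤ _ := norm_sub_le _ _
    nlinarith [norm_nonneg y]
  have hsr := fun (y : ℂ) (hy : ‖y‖ ≤ r) => star_ratio ht (hy100 y hy)
  have hebd : ∀ y : ℂ, ‖y‖ ≤ r → ‖e y‖ ≤ 0.8 := fun y hy => log_one_add_small (hsr y hy).2
  have h1v : ∀ y : ℂ, ‖y‖ ≤ r → 1 + v y ∈ slitPlane := by
    intro y hy
    left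
    have h1 := (abs_le.1 ((Complex.abs_re_le_norm (v y)).trans (hsr y hy).2)).1
    simp only [add_re, one_re]
    linarith
  have hcbd : ∀ y : ℂ, ‖y‖ ≤ r → ‖c y‖ ≤ 4.2 := by
    intro y hy
    have h1 : ‖(Real.pi : ℂ) * I‖ = Real.pi := by
      rw [norm_mul, Complex.norm_I, mul_one, Complex.norm_real,
        Real.norm_of_nonneg Real.pi_pos.le]
    have h2 : ‖c y‖ ≤ ‖(Real.pi : ℂ) * I‖ + ‖log (1 - y)‖ + ‖e y‖ :=
      (norm_sub_le _ _).trans (by gcongr; exact norm_add_le _ _)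
    have := hlog y hy
    have := hebd y hy
    have := Real.pi_lt_d2
    linarith
  have hcim : ∀ y : ℂ, ‖y‖ ≤ r → 2 ≤ (c y).im := by
    intro y hy
    have h1 := (abs_le.1 ((Complex.abs_im_le_norm (log (1 - y))).trans (hlog y hy))).1
    have h2 := (abs_le.1 ((Complex.abs_im_le_norm (e y)).trans (hebd y hy))).2
    have h3 : (c y).im = Real.pi + (log (1 - y)).im - (e y).im := by
      simp [hc]
    have := Real.pi_gt_d2
    rw [h3]
    linarith
  have hlb := fun (y : ℂ) (hy : ‖y‖ ≤ r) => lam_bound (hcbd y hy) (hcim y hy) hm100 hmρ1 hmρ2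
  have hsl2 : ∀ y : ℂ, ‖y‖ ≤ r → 1 - y ∈ slitPlane := fun y hy => by
    rw [sub_eq_add_neg]
    exact slit_of_small (by rw [norm_neg]; linarith)
  have hlamd : ∀ y : ℂ, ‖y‖ ≤ r → DifferentiableAt ℂ lam y := by
    intro y hy
    have hvd : DifferentiableAt ℂ v y := by
      refine DifferentiableAt.div (by fun_prop) (by fun_prop) (hsr y hy).1
    have hed : DifferentiableAt ℂ e y := DifferentiableAt.clog
      ((differentiableAt_const _).add hvd) (h1v y hy)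
    have hcd : DifferentiableAt ℂ c y :=
      ((differentiableAt_const _).add (DifferentiableAt.clog (by fun_prop) (hsl2 y hy))).sub hed
    refine DifferentiableAt.clog ?_ (Or.inr (hlb y hy).1.ne')
    exact ((hcd.div_const _).cexp.sub_const 1).div_const _
  have hΨd : ∀ y : ℂ, ‖y‖ ≤ r → DifferentiableAt ℂ Ψ y := fun y hy =>
    (hst.diff y hy).sub (hlamd y hy)
  -- values at zero
  have hU0 : U 0 = 0 := by
    have h1 := hE.err 0 (by rw [norm_zero]; exact hr0.le)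
    simpa using h1
  have hS0 : stepU p k U 0 = 0 := by
    unfold stepU
    rw [hU0]
    simp
  have hΨ0 : ‖Ψ 0‖ ≤ 7 := by
    have h1 := (hlb 0 (by rw [norm_zero]; exact hr0.le)).2
    simp only [hΨ, hS0, zero_sub, norm_neg]
    exact h1
  -- lower bound on the sphere
  have hsph : ∀ y : ℂ, ‖y‖ = r → 33 ≤ ‖Ψ y‖ := by
    intro y hy
    have hy' : ‖y‖ ≤ r := hy.le
    have h1 : η / 8 ≤ ‖U y‖ := by
      have h2 := hE.err y hy'
      have h3 : ‖(L : ℂ) * y‖ ≤ ‖U y‖ + ‖U y - L * y‖ := by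
        calc ‖(L : ℂ) * y‖ = ‖U y - (U y - L * y)‖ := by ring_nf
          _ ≤ _ := norm_sub_le _ _
      rw [norm_mul, Complex.norm_real, Real.norm_eq_abs, hy] at h3
      rw [hy] at h2
      have h4 : K * Q ^ 2 * r ^ 2 = (K * η) * η := by
        have : K * Q ^ 2 * r ^ 2 = K * (Q * r) * (Q * r) := by ring
        rw [this, hQr]
      have h5 : (Q / 4 + 1) * r ≤ |L| * r := mul_le_mul_of_nonneg_right hL1 hr0.le
      have h6 : (K * η) * η ≤ 1 / 8 * η := mul_le_mul_of_nonneg_right hKη hη.le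
      nlinarith
    have h2 := (inner_bound (U := U y) ((hM6 y hy').trans (by norm_num)) hp0 hp2).2
    have h3 : p * ‖U y‖ ≤ ‖log (1 + (p : ℂ) * (exp (U y) - 1))‖ +
        ‖log (1 + (p : ℂ) * (exp (U y) - 1)) - p * U y‖ := by
      have : ‖(p : ℂ) * U y‖ = p * ‖U y‖ := by
        rw [norm_mul, Complex.norm_real, Real.norm_of_nonneg hp0]
      rw [← this]
      calc ‖(p : ℂ) * U y‖ = ‖log (1 + (p : ℂ) * (exp (U y) - 1)) -
            (log (1 + (p : ℂ) * (exp (U y) - 1)) - p * U y)‖ := by ring_nf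
        _ ≤ _ := norm_sub_le _ _
    have h4 : 3 * p * ‖U y‖ ^ 2 ≤ p * ‖U y‖ / 2 := by
      have h5 := hM6 y hy'
      have h6 : 0 ≤ p * ‖U y‖ := by positivity
      nlinarith
    have h5 : η / 288 ≤ ‖log (1 + (p : ℂ) * (exp (U y) - 1))‖ := by
      have h6 : 1 / 18 * (η / 8) ≤ p * ‖U y‖ :=
        mul_le_mul hp18 h1 (by positivity) hp0
      linarith
    have h6 : ‖(k : ℂ) * log (1 + (p : ℂ) * (exp (U y) - 1))‖ ≤
        ‖stepU p k U y‖ + ‖log (1 - y)‖ := by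
      calc ‖(k : ℂ) * log (1 + (p : ℂ) * (exp (U y) - 1))‖ =
          ‖log (1 - y) - stepU p k U y‖ := by unfold stepU; ring_nf
        _ ≤ ‖log (1 - y)‖ + ‖stepU p k U y‖ := norm_sub_le _ _
        _ = _ := add_comm _ _
    rw [norm_mul, Complex.norm_natCast] at h6
    have h7 : (k : ℝ) * (η / 288) ≤ k * ‖log (1 + (p : ℂ) * (exp (U y) - 1))‖ :=
      mul_le_mul_of_nonneg_left h5 (Nat.cast_nonneg _)
    have h8 := hlog y hy'
    have h9 := (hlb y hy').2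
    have h10 : ‖stepU p k U y‖ ≤ ‖Ψ y‖ + ‖lam y‖ := by
      calc ‖stepU p k U y‖ = ‖Ψ y + lam y‖ := by simp [hΨ]
        _ ≤ _ := norm_add_le _ _
    have h11 : ‖lam y‖ ≤ 7 := h9
    nlinarith
  -- existence of a zero
  have hzero : ∃ y : ℂ, ‖y‖ ≤ r ∧ Ψ y = 0 := by
    by_contra hcon
    push Not at hcon
    have hd : DiffContOnCl ℂ Ψ (Metric.ball 0 r) := by
      apply DifferentiableOn.diffContOnCl_ball (U := Metric.closedBall (0 : ℂ) r)
      · intro y hy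
        exact (hΨd y (by simpa using hy)).differentiableWithinAt
      · exact subset_rfl
    have hcl : closure (Metric.ball (0 : ℂ) r) = Metric.closedBall 0 r :=
      closure_ball 0 hr0.ne'
    have hdi : DiffContOnCl ℂ Ψ⁻¹ (Metric.ball 0 r) := by
      apply hd.inv
      intro y hy
      rw [hcl] at hy
      exact hcon y (by simpa using hy)
    have h1 := Complex.norm_le_of_forall_mem_frontier_norm_le (f := Ψ⁻¹) (C := 1 / 33)
      Metric.isBounded_ball hdi (by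
        intro y hy
        rw [frontier_ball 0 hr0.ne'] at hy
        have h2 := hsph y (by simpa using hy)
        rw [Pi.inv_apply, norm_inv, one_div]
        exact inv_anti₀ (by norm_num) h2) (z := 0) (by
        rw [hcl]; exact Metric.mem_closedBall_self hr0.le)
    rw [Pi.inv_apply, norm_inv] at h1
    have h2 : Ψ 0 ≠ 0 := hcon 0 (by rw [norm_zero]; exact hr0.le)
    have h3 : 0 < ‖Ψ 0‖ := norm_pos_iff.2 h2
    rw [inv_le_comm₀ h3 (by norm_num)] at h1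
    norm_num at h1
    linarith
  obtain ⟨y, hy, hΨy⟩ := hzero
  have hlby := hlb y hy
  have hy0 : y ≠ 0 := by
    rintro rfl
    have h1 : lam 0 = 0 := by
      have := hΨy
      simp only [hΨ, hS0, zero_sub, neg_eq_zero] at this
      exact this
    have h2 : (exp (c 0 / m) - 1) / (ρ : ℂ) = 1 := by
      have hne : (exp (c 0 / m) - 1) / (ρ : ℂ) ≠ 0 := by
        intro h0
        have := hlby.1
        rw [h0] at this
        simp at this
      have := exp_log hne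
      rw [show log ((exp (c 0 / m) - 1) / (ρ : ℂ)) = lam 0 from rfl, h1, exp_zero] at this
      exact this.symm
    have := hlby.1
    rw [h2] at this
    simp at this
  have hS : stepU p k U y = lam y := by
    have := hΨy
    simp only [hΨ] at this
    exact sub_eq_zero.1 this
  have hτ : (ρ : ℂ) * exp (stepU p k U y) = exp (c y / m) - 1 := by
    have hne : (exp (c y / m) - 1) / (ρ : ℂ) ≠ 0 := by
      intro h0
      have := hlby.1
      rw [h0] at this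
      simp at this
    have hρc : (ρ : ℂ) ≠ 0 := by exact_mod_cast hρ0.ne'
    rw [hS]
    simp only [hlam]
    rw [exp_log hne]
    field_simp
  have hexpc : (exp (c y / m)) ^ m = -(1 - y) / (1 + v y) := by
    rw [← exp_nat_mul]
    have hmc : (m : ℂ) ≠ 0 := by
      have : (0 : ℝ) < m := by linarith
      exact_mod_cast this.ne'
    rw [mul_div_cancel₀ _ hmc]
    simp only [hc, he]
    rw [exp_sub, exp_add, exp_pi_mul_I, exp_log (slitPlane_ne_zero (hsl2 y hy)),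
      exp_log (slitPlane_ne_zero (h1v y hy))]
    ring
  -- the pieces
  have hP1 := Piece.base.graftMany hP k
  have hP2 := Piece.base.graftMany hP1 m
  have hP3 := hP2.graft (Piece.base.graftMany Piece.base t)
  set x : ℂ := 1 / y - 1 with hx
  have hx1 : 1 + x = 1 / y := by rw [hx]; ring
  have hx2 : x / (1 + x) = 1 - y := by
    rw [hx1, hx]
    field_simp
  have hrel := hst.rel y hy
  have hD := (hsr y hy).1
  have h1v0 : 1 + v y ≠ 0 := slitPlane_ne_zero (h1v y hy)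
  obtain ⟨V, _, G, hG1, hG2, hG3, hG4⟩ := hP3.final x (by rw [hx1]; exact one_div_ne_zero hy0) (by
    rw [hx2]
    beta_reduce at hrel ⊢
    rw [hrel, hτ]
    have hvy : v y = (1 - y) / (1 - y + 1) ^ t := rfl
    have h2 : (1 - y) * 1 ^ t + 1 * (1 - y + 1) ^ t = (1 - y + 1) ^ t * (1 + v y) := by
      rw [hvy, mul_add, mul_div_cancel₀ _ hD, one_pow]
      ring
    exact alg_final y (v y) _ _ _ m _ h2 hexpc h1v0)
  refine ⟨V, _, G, hG1, hG2, hG3, x, hG4, ?_⟩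
  have hyn : 0 < ‖y‖ := norm_pos_iff.2 hy0
  have h1 : ‖(1 : ℂ) / y‖ ≤ ‖x‖ + 1 := by
    calc ‖(1 : ℂ) / y‖ = ‖x + 1‖ := by rw [hx]; ring_nf
      _ ≤ ‖x‖ + ‖(1 : ℂ)‖ := norm_add_le _ _
      _ = _ := by rw [norm_one]
  rw [norm_div, norm_one] at h1
  have h2 : 1 / r ≤ 1 / ‖y‖ := one_div_le_one_div_of_le hyn hy
  have h3 : 1 / r = Q / η := by rw [hr]; field_simp
  have h4 : 2 * Q ≤ Q / η := by
    rw [le_div_iff₀ hη]
    nlinarith
  have h5 : Q ≤ ‖x‖ := by linarith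
  calc (N : ℝ) ≤ Q ^ 4 := hNQ
    _ ≤ ‖x‖ ^ 4 := pow_le_pow_left₀ (by linarith) h5 4

end Pool.Agent.WCT
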