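import Pool.Agent.WCT.Expn

set_option autoImplicit false

/-! Trees with a large logarithmic derivative of the root ratio at `z = 1`. -/

namespace Pool.Agent.WCT

open Complex

lemma Expn.mono {A B : ℂ → ℂ} {R L E δ E' δ' : ℝ} {U : ℂ → ℂ} (h : Expn A B R L E δ U)
    (hE : E ≤ E') (hδ : δ' ≤ δ) : Expn A B R L E' δ' U :=
  ⟨h.hR, fun y hy => h.rel y (hy.trans hδ), fun y hy => h.ne y (hy.trans hδ),
    fun y hy => h.diff y (hy.trans hδ), fun y hy => (h.err y (hy.trans hδ)).trans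
      (mul_le_mul_of_nonneg_right hE (by positivity))⟩

/-- a rooted tree on `N` vertices with large logarithmic derivative -/
def Good (K η : ℝ) (N : ℕ) : Prop :=
  1 ≤ N ∧ ∃ (A B : ℂ → ℂ) (R L Q : ℝ) (U : ℂ → ℂ), Piece N A B ∧ 1 / 17 ≤ R ∧ R ≤ 1 / 16 ∧
    Q / 4 + 1 ≤ |L| ∧ |L| ≤ Q - 1 ∧ (N : ℝ) ≤ Q ^ 4 ∧ Expn A B R L (K * Q ^ 2) (η / Q) U

lemma U_small {A B : ℂ → ℂ} {R L Q K η : ℝ} {U : ℂ → ℂ} (h : Expn A B R L (K * Q ^ 2) (η / Q) U)
    (hL : |L| ≤ Q - 1) (hQ : 1 ≤ Q) (hK : 0 ≤ K) (hKη : K * η ≤ 1 / 8) {y : ℂ}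
    (hy : ‖y‖ ≤ η / Q) : ‖U y‖ ≤ 2 * Q * ‖y‖ := by
  have h1 := h.norm_le hy
  have h2 : Q * ‖y‖ ≤ η := by
    rw [le_div_iff₀ (by linarith)] at hy
    linarith
  have h3 := norm_nonneg y
  have h4 : K * Q ^ 2 * ‖y‖ ^ 2 = K * (Q * ‖y‖) * (Q * ‖y‖) := by ring
  have h5 : K * (Q * ‖y‖) ≤ 1 / 8 := (mul_le_mul_of_nonneg_left h2 hK).trans hKη
  have h6 : 0 ≤ Q * ‖y‖ := by positivity
  have h7 : K * (Q * ‖y‖) * (Q * ‖y‖) ≤ 1 / 8 * (Q * ‖y‖) := mul_le_mul_of_nonneg_right h5 h6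
  have h8 : |L| * ‖y‖ ≤ (Q - 1) * ‖y‖ := mul_le_mul_of_nonneg_right hL h3
  nlinarith

lemma log_le_half {t : ℝ} (ht : 1 ≤ t) : Real.log t ≤ (t - t⁻¹) / 2 := by
  have h0 : 0 < t := by linarith
  rw [← Real.sinh_log h0, Real.self_le_sinh_iff]
  exact Real.log_nonneg ht

lemma choose_d {R : ℝ} (h1 : 1 / 17 ≤ R) (h2 : R ≤ 1 / 16) : ∃ d : ℕ, 1 ≤ d ∧ d ≤ 49 ∧
    1 / 17 ≤ (1 + R)⁻¹ ^ d ∧ (1 + R)⁻¹ ^ d ≤ 1 / 16 ∧ 2.68 ≤ d * (R / (1 + R)) ∧
    d * (R / (1 + R)) ≤ 3 := by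
  classical
  have hpos : 0 < 1 + R := by linarith
  have h49 : (16 : ℝ) ≤ (1 + R) ^ 49 := by
    have h3 : ((18 / 17 : ℝ)) ^ 49 ≤ (1 + R) ^ 49 :=
      pow_le_pow_left₀ (by norm_num) (by linarith) 49
    refine le_trans ?_ h3
    norm_num
  have hex : ∃ d : ℕ, (16 : ℝ) ≤ (1 + R) ^ d := ⟨49, h49⟩
  set d := Nat.find hex with hd
  have hd1 : (16 : ℝ) ≤ (1 + R) ^ d := Nat.find_spec hex
  have hd49 : d ≤ 49 := Nat.find_min' hex h49
  have hd0 : 1 ≤ d := by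
    rw [Nat.one_le_iff_ne_zero]
    intro h0
    rw [h0] at hd1
    norm_num at hd1
  have hd2 : (1 + R) ^ (d - 1) < 16 := by
    have := Nat.find_min hex (m := d - 1) (by omega)
    exact not_le.1 this
  have hd3 : (1 + R) ^ d ≤ 17 := by
    have : (1 + R) ^ d = (1 + R) ^ (d - 1) * (1 + R) := by
      rw [← pow_succ, Nat.sub_add_cancel hd0]
    rw [this]
    nlinarith
  refine ⟨d, hd0, hd49, ?_, ?_, ?_, ?_⟩
  · rw [inv_pow, one_div]
    exact inv_anti₀ (by positivity) hd3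
  · rw [inv_pow, one_div]
    exact inv_anti₀ (by norm_num) hd1
  · have h3 : Real.log 16 ≤ d * Real.log (1 + R) := by
      rw [← Real.log_pow]
      exact Real.log_le_log (by norm_num) hd1
    have h4 : Real.log 16 = 4 * Real.log 2 := by
      rw [show (16 : ℝ) = 2 ^ 4 by norm_num, Real.log_pow]
      norm_num
    have h5 := Real.log_two_gt_d9
    have h6 := log_le_half (t := 1 + R) (by linarith)
    have h7 : ((1 + R) - (1 + R)⁻¹) / 2 = (R / (1 + R)) * (1 + R / 2) := by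
      field_simp
      ring
    rw [h7] at h6
    have hp : 0 ≤ R / (1 + R) := by positivity
    have hdn : (0 : ℝ) ≤ d := Nat.cast_nonneg _
    have h8 : (d : ℝ) * Real.log (1 + R) ≤ d * ((R / (1 + R)) * (1 + R / 2)) :=
      mul_le_mul_of_nonneg_left h6 hdn
    have h9 : (d : ℝ) * ((R / (1 + R)) * (1 + R / 2)) ≤ (d * (R / (1 + R))) * (33 / 32) := by
      rw [← mul_assoc]
      exact mul_le_mul_of_nonneg_left (by linarith) (by positivity)
    norm_num at h5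
    linarith
  · have h3 : R / (1 + R) ≤ 1 / 17 := by
      rw [div_le_div_iff₀ hpos (by norm_num)]
      linarith
    have h4 : (d : ℝ) ≤ 49 := by exact_mod_cast hd49
    have hp : 0 ≤ R / (1 + R) := by positivity
    nlinarith

lemma Good.step {K η : ℝ} (hK : 13 ≤ K) (hη : 0 < η) (hKη : K * η ≤ 1 / 8) {N : ℕ}
    (h : Good K η N) : ∃ N', Good K η N' ∧ N < N' ∧ N' ≤ 50 * N := by
  obtain ⟨hN, A, B, R, L, Q, U, hP, hR1, hR2, hL1, hL2, hNQ, hE⟩ := h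
  obtain ⟨d, hd1, hd2, hd3, hd4, hd5, hd6⟩ := choose_d hR1 hR2
  have hQ : 1 ≤ Q := by
    have := abs_nonneg L
    linarith
  have hη2 : η ≤ 1 / 104 := by nlinarith
  set g := d * (R / (1 + R)) with hg
  have hgQ : 1 ≤ g * Q := by nlinarith
  have hδ : η / (g * Q) ≤ η / Q := by
    apply div_le_div_of_nonneg_left hη.le (by linarith)
    nlinarith
  have hδ2 : η / (g * Q) ≤ η := div_le_self hη.le hgQ
  have hM : ∀ y : ℂ, ‖y‖ ≤ η / (g * Q) → ‖U y‖ ≤ (2 * Q) * ‖y‖ := fun y hy =>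
    U_small hE hL2 hQ (by linarith) hKη (hy.trans hδ)
  have hM4 : ∀ y : ℂ, ‖y‖ ≤ η / (g * Q) → ‖U y‖ ≤ 1 / 4 := by
    intro y hy
    have h1 := hM y hy
    have h2 : Q * ‖y‖ ≤ η := by
      have h3 := hy.trans hδ
      rw [le_div_iff₀ (by linarith)] at h3
      linarith
    nlinarith
  have hst := hE.step (by linarith) d (2 * Q) (η / (g * Q)) hδ (by linarith) hM hM4
  refine ⟨1 + d * N, ⟨by omega, _, _, _, _, g * Q, _, Piece.base.graftMany hP d, hd3, hd4, ?_, ?_,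
    ?_, hst.mono ?_ le_rfl⟩, ?_, ?_⟩
  · rw [← hg]
    have h1 : |(-1 - g * L)| ≥ g * |L| - 1 := by
      have h2 : |g * L| = g * |L| := by rw [abs_mul, abs_of_nonneg (by linarith)]
      have h3 : |g * L| ≤ |(-1 - g * L)| + |(1 : ℝ)| := by
        have := abs_add_le (-1 - g * L) 1
        rw [show -1 - g * L + 1 = -(g * L) by ring, abs_neg] at this
        exact this
      rw [abs_one] at h3
      linarith
    nlinarith
  · rw [← hg]
    have h1 : |(-1 - g * L)| ≤ g * |L| + 1 := by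
      have h2 : |g * L| = g * |L| := by rw [abs_mul, abs_of_nonneg (by linarith)]
      have h3 := abs_sub (-1) (g * L)
      rw [abs_neg, abs_one] at h3
      linarith
    nlinarith
  · have h1 : ((1 + d * N : ℕ) : ℝ) ≤ 50 * N := by
      have h2 : (d : ℝ) ≤ 49 := by exact_mod_cast hd2
      have h3 : (1 : ℝ) ≤ N := by exact_mod_cast hN
      push_cast
      nlinarith
    have h2 : (50 : ℝ) ≤ g ^ 4 := by
      have h3 : (2.68 : ℝ) ^ 4 ≤ g ^ 4 := pow_le_pow_left₀ (by norm_num) hd5 4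
      refine le_trans ?_ h3
      norm_num
    calc ((1 + d * N : ℕ) : ℝ) ≤ 50 * N := h1
      _ ≤ g ^ 4 * Q ^ 4 := mul_le_mul h2 hNQ (by positivity) (by positivity)
      _ = (g * Q) ^ 4 := by ring
  · rw [← hg]
    have hQ2 : 1 ≤ Q ^ 2 := one_le_pow₀ hQ
    have h1 : 0 ≤ K * g * Q ^ 2 := by positivity
    have h2 : 1 ≤ g * Q ^ 2 := by nlinarith
    have h3 : K * (g * Q) ^ 2 = K * g * Q ^ 2 * g := by ring
    have h4 : 13 * (g * Q ^ 2) ≤ K * (g * Q ^ 2) := mul_le_mul_of_nonneg_right hK (by positivity)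
    have h5 : K * g * Q ^ 2 * 2.68 ≤ K * g * Q ^ 2 * g := mul_le_mul_of_nonneg_left hd5 h1
    nlinarith
  · have : N ≤ d * N := Nat.le_mul_of_pos_left N (by omega)
    omega
  · have : d * N ≤ 49 * N := Nat.mul_le_mul_right N hd2
    omega

lemma Good.init : ∃ K η : ℝ, 13 ≤ K ∧ 0 < η ∧ K * η ≤ 1 / 8 ∧ η ≤ 1 / 104 ∧ Good K η 231 := by
  obtain ⟨E1, δ1, U1, hE1, hδ1, h1⟩ := Expn.base.soft le_rfl one_pos.le (by norm_num) 4
  have hR1 : ((1 + 1 : ℝ)⁻¹ ^ 4) ≤ 1 := by norm_num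
  obtain ⟨E2, δ2, U2, hE2, hδ2, h2⟩ := h1.soft hR1 hE1 hδ1 46
  set K := max 13 E2 with hK
  have hK13 : 13 ≤ K := le_max_left _ _
  have hKE : E2 ≤ K := le_max_right _ _
  set η := min (1 / (8 * K)) δ2 with hη
  have hKpos : 0 < K := by linarith
  have hη0 : 0 < η := lt_min (by positivity) hδ2
  have hη1 : η ≤ 1 / (8 * K) := min_le_left _ _
  have hη2 : η ≤ δ2 := min_le_right _ _
  have hKη : K * η ≤ 1 / 8 := by
    calc K * η ≤ K * (1 / (8 * K)) := mul_le_mul_of_nonneg_left hη1 hKpos.le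
      _ = 1 / 8 := by field_simp
  refine ⟨K, η, hK13, hη0, hKη, by nlinarith, by norm_num, _, _, _, _, 5, U2,
    Piece.base.graftMany (Piece.base.graftMany Piece.base 4) 46, ?_, ?_, ?_, ?_, ?_,
    h2.mono ?_ ?_⟩
  · norm_num
  · norm_num
  · norm_num [abs_of_neg, abs_of_nonpos]
  · norm_num [abs_of_neg, abs_of_nonpos]
  · norm_num
  · nlinarith
  · exact (div_le_self hη0.le (by norm_num)).trans hη2

lemma Good.cover {K η : ℝ} (hK : 13 ≤ K) (hη : 0 < η) (hKη : K * η ≤ 1 / 8)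
    (h0 : Good K η 231) (X : ℕ) (hX : 231 ≤ X) : ∃ N, Good K η N ∧ N ≤ X ∧ X < 50 * N := by
  induction X, hX using Nat.le_induction with
  | base => exact ⟨231, h0, le_rfl, by norm_num⟩
  | succ X hX ih =>
    obtain ⟨N, hG, h1, h2⟩ := ih
    by_cases h3 : X + 1 < 50 * N
    · exact ⟨N, hG, by omega, h3⟩
    · obtain ⟨N', hG', h4, h5⟩ := hG.step hK hη hKη
      exact ⟨N', hG', by omega, by omega⟩

end Pool.Agent.WCT
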