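import Mathlib

set_option autoImplicit false

/-! Rooted trees built by joining roots, and the tree `T*` with a leaf attached to each vertex. -/

namespace Pool.Agent.WCT

open SimpleGraph Finset

/-- The value at `x` of the independence polynomial: the sum of `x ^ |S|` over all independent sets
`S` of `G`. -/
noncomputable def indepEval {V : Type} [Fintype V] (G : SimpleGraph V) (x : ℂ) : ℂ :=
  open Classical in ∑ s : Finset V, if G.IsIndepSet (s : Set V) then x ^ s.card else 0

/-- All maximal independent sets of `G` have the same cardinality. -/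
def WellCovered {V : Type} (G : SimpleGraph V) : Prop :=
  ∀ s t : Finset V, Maximal (fun u : Finset V => G.IsIndepSet (u : Set V)) s →
    Maximal (fun u : Finset V => G.IsIndepSet (u : Set V)) t → s.card = t.card

/-- independent sets containing the root -/
noncomputable def AA {V : Type} [Fintype V] (G : SimpleGraph V) (r : V) (x : ℂ) : ℂ :=
  open Classical in ∑ s : Finset V, if G.IsIndepSet (s : Set V) ∧ r ∈ s then x ^ s.card else 0

/-- independent sets avoiding the root -/
noncomputable def BB {V : Type} [Fintype V] (G : SimpleGraph V) (r : V) (x : ℂ) : ℂ :=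
  open Classical in ∑ s : Finset V, if G.IsIndepSet (s : Set V) ∧ r ∉ s then x ^ s.card else 0

lemma AA_add_BB {V : Type} [Fintype V] (G : SimpleGraph V) (r : V) (x : ℂ) :
    AA G r x + BB G r x = indepEval G x := by
  classical
  unfold AA BB indepEval
  rw [← Finset.sum_add_distrib]
  refine Finset.sum_congr rfl fun s _ => ?_
  by_cases h : G.IsIndepSet (s : Set V) <;> by_cases hr : r ∈ s <;> simp [h, hr]

/-- join the roots -/
def graft {V W : Type} (G : SimpleGraph V) (H : SimpleGraph W) (r : V) (s : W) :
    SimpleGraph (V ⊕ W) := (G ⊕g H) ⊔ edge (.inl r) (.inr s)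

lemma graft_indep {V W : Type} (G : SimpleGraph V) (H : SimpleGraph W) (r : V) (s : W)
    (I : Finset V) (J : Finset W) :
    (graft G H r s).IsIndepSet ((I.disjSum J : Finset (V ⊕ W)) : Set (V ⊕ W)) ↔
      G.IsIndepSet (I : Set V) ∧ H.IsIndepSet (J : Set W) ∧ ¬ (r ∈ I ∧ s ∈ J) := by
  classical
  constructor
  · intro h
    refine ⟨?_, ?_, ?_⟩
    · intro u hu v hv huv hadj
      exact h (x := Sum.inl u) (by simpa using hu) (y := Sum.inl v) (by simpa using hv)
        (by simpa using huv) (by simp [graft, hadj])
    · intro u hu v hv huv hadj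
      exact h (x := Sum.inr u) (by simpa using hu) (y := Sum.inr v) (by simpa using hv)
        (by simpa using huv) (by simp [graft, hadj])
    · rintro ⟨h1, h2⟩
      exact h (x := Sum.inl r) (by simpa using h1) (y := Sum.inr s) (by simpa using h2)
        (by simp) (by simp [graft, edge_adj])
  · rintro ⟨h1, h2, h3⟩
    rintro (u | u) hu (v | v) hv huv hadj
    · simp [graft, edge_adj] at hadj hu hv
      exact h1 hu hv (by simpa using huv) hadj
    · simp [graft, edge_adj] at hadj hu hv
      exact h3 ⟨hadj.1 ▸ hu, hadj.2 ▸ hv⟩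
    · simp [graft, edge_adj] at hadj hu hv
      exact h3 ⟨hadj.2 ▸ hv, hadj.1 ▸ hu⟩
    · simp [graft, edge_adj] at hadj hu hv
      exact h2 hu hv (by simpa using huv) hadj

lemma sum_disj {V W : Type} [Fintype V] [Fintype W] (F : Finset (V ⊕ W) → ℂ) :
    ∑ K : Finset (V ⊕ W), F K = ∑ I : Finset V, ∑ J : Finset W, F (I.disjSum J) := by
  classical
  rw [← Fintype.sum_prod_type']
  refine (Fintype.sum_equiv (Finset.sumEquiv (α := V) (β := W)).toEquiv.symm _ _ ?_).symm
  rintro ⟨I, J⟩
  rfl

lemma AA_graft {V W : Type} [Fintype V] [Fintype W] (G : SimpleGraph V) (H : SimpleGraph W)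
    (r : V) (s : W) (x : ℂ) :
    AA (graft G H r s) (.inl r) x = AA G r x * BB H s x := by
  classical
  unfold AA BB
  rw [sum_disj, Finset.sum_mul_sum]
  refine Finset.sum_congr rfl fun I _ => Finset.sum_congr rfl fun J _ => ?_
  simp only [graft_indep, Finset.inl_mem_disjSum, Finset.card_disjSum, pow_add]
  by_cases h1 : G.IsIndepSet (I : Set V) <;> by_cases h2 : H.IsIndepSet (J : Set W) <;>
    by_cases h3 : r ∈ I <;> by_cases h4 : s ∈ J <;> simp [h1, h2, h3, h4]

lemma BB_graft {V W : Type} [Fintype V] [Fintype W] (G : SimpleGraph V) (H : SimpleGraph W)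
    (r : V) (s : W) (x : ℂ) :
    BB (graft G H r s) (.inl r) x = BB G r x * (AA H s x + BB H s x) := by
  classical
  rw [AA_add_BB]
  unfold BB indepEval
  rw [sum_disj, Finset.sum_mul_sum]
  refine Finset.sum_congr rfl fun I _ => Finset.sum_congr rfl fun J _ => ?_
  simp only [graft_indep, Finset.inl_mem_disjSum, Finset.card_disjSum, pow_add]
  by_cases h1 : G.IsIndepSet (I : Set V) <;> by_cases h2 : H.IsIndepSet (J : Set W) <;>
    by_cases h3 : r ∈ I <;> simp [h1, h2, h3]

lemma edgeSet_edge_subset {V : Type} (a b : V) : (edge a b).edgeSet ⊆ {s(a, b)} := by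
  intro e
  induction e with
  | h u v =>
    intro h
    simp [edge_adj] at h
    rcases h.1 with h | h
    · simp [h.1, h.2]
    · simp [h.1, h.2]

lemma graft_isTree {V W : Type} [Fintype V] [Fintype W] (G : SimpleGraph V) (H : SimpleGraph W)
    (r : V) (s : W) (hG : G.IsTree) (hH : H.IsTree) : (graft G H r s).IsTree := by
  classical
  have hc : (graft G H r s).Connected := hG.connected.sum_sup_edge hH.connected
  refine (isTree_iff_connected_and_card).2 ⟨hc, le_antisymm ?_ ?_⟩
  · have h1 := (isTree_iff_connected_and_card.1 hG).2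
    have h2 := (isTree_iff_connected_and_card.1 hH).2
    have h3 : Nat.card (G ⊕g H).edgeSet = Nat.card G.edgeSet + Nat.card H.edgeSet := by
      rw [Nat.card_congr (edgeSetSumEquiv (G := G) (H := H)), Nat.card_sum]
    have h4 : Nat.card (graft G H r s).edgeSet ≤ Nat.card (G ⊕g H).edgeSet + 1 := by
      unfold graft
      rw [edgeSet_sup]
      have h5 : ((G ⊕g H).edgeSet ∪ (edge (Sum.inl r) (Sum.inr s)).edgeSet).ncard ≤
          (G ⊕g H).edgeSet.ncard + (edge (Sum.inl r) (Sum.inr s)).edgeSet.ncard :=
        Set.ncard_union_le _ _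
      have h6 : (edge (Sum.inl r : V ⊕ W) (Sum.inr s)).edgeSet.ncard ≤ 1 := by
        refine (Set.ncard_le_ncard (edgeSet_edge_subset _ _) (Set.finite_singleton _)).trans ?_
        simp
      rw [Nat.card_coe_set_eq, Nat.card_coe_set_eq]
      omega
    rw [Nat.card_sum]
    omega
  · have := hc.card_vert_le_card_edgeSet_add_one
    simpa using this

/-- the data of a rooted tree on `N` vertices with polynomials `A` (root in) and `B` (root out) -/
def Piece (N : ℕ) (A B : ℂ → ℂ) : Prop :=
  ∃ (V : Type) (_ : Fintype V) (G : SimpleGraph V) (r : V), G.IsTree ∧ Fintype.card V = N ∧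
    (∀ x, AA G r x = A x) ∧ ∀ x, BB G r x = B x

lemma Piece.base : Piece 1 (fun x => x) (fun _ => 1) := by
  classical
  refine ⟨Unit, inferInstance, ⊥, (), IsTree.of_subsingleton, by simp, ?_, ?_⟩
  · intro x
    unfold AA
    rw [show (Finset.univ : Finset (Finset Unit)) = {∅, {()}} from by decide]
    rw [Finset.sum_pair (by decide)]
    simp [IsIndepSet]
  · intro x
    unfold BB
    rw [show (Finset.univ : Finset (Finset Unit)) = {∅, {()}} from by decide]
    rw [Finset.sum_pair (by decide)]
    simp [IsIndepSet]

lemma Piece.graft {N M : ℕ} {A B C D : ℂ → ℂ} (h : Piece N A B) (k : Piece M C D) :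
    Piece (N + M) (fun x => A x * D x) (fun x => B x * (C x + D x)) := by
  obtain ⟨V, _, G, r, h1, h2, h3, h4⟩ := h
  obtain ⟨W, _, H, s, k1, k2, k3, k4⟩ := k
  refine ⟨V ⊕ W, inferInstance, WCT.graft G H r s, .inl r, graft_isTree G H r s h1 k1,
    by simp [h2, k2], fun x => ?_, fun x => ?_⟩
  · rw [AA_graft, h3, k4]
  · rw [BB_graft, h4, k3, k4]

lemma Piece.graftMany {N M : ℕ} {A B C D : ℂ → ℂ} (h : Piece N A B) (k : Piece M C D) (d : ℕ) :
    Piece (N + d * M) (fun x => A x * D x ^ d) (fun x => B x * (C x + D x) ^ d) := by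
  induction d with
  | zero => simpa using h
  | succ d ih =>
    have := ih.graft k
    convert this using 1
    · ring
    · funext x; ring
    · funext x; ring

/-- the tree with a leaf attached to each vertex -/
def star {U : Type} (T : SimpleGraph U) : SimpleGraph (U ⊕ U) where
  Adj a b := match a, b with
    | .inl u, .inl v => T.Adj u v
    | .inl u, .inr v => u = v
    | .inr u, .inl v => u = v
    | .inr _, .inr _ => False
  symm := by
    constructor
    rintro (u | u) (v | v) h
    · exact T.adj_symm h
    · exact h.symm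
    · exact h.symm
    · exact h
  loopless := by
    constructor
    rintro (u | u) h
    · exact T.loopless.irrefl u h
    · exact h

lemma star_connected {U : Type} (T : SimpleGraph U) (h : T.Connected) : (star T).Connected := by
  have hne := h.nonempty
  have h1 : ∀ u v : U, (star T).Reachable (.inl u) (.inl v) := fun u v =>
    (h.preconnected u v).map ⟨Sum.inl, fun {a b} hab => hab⟩
  have h2 : ∀ u : U, (star T).Reachable (.inr u) (.inl u) := fun u =>
    Adj.reachable (show (star T).Adj _ _ from rfl)
  refine { preconnected := ?_, nonempty := ⟨Sum.inl (Classical.arbitrary U)⟩ }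
  rintro (u | u) (v | v)
  · exact h1 u v
  · exact (h1 u v).trans (h2 v).symm
  · exact (h2 u).trans (h1 u v)
  · exact ((h2 u).trans (h1 u v)).trans (h2 v).symm

lemma star_isTree {U : Type} [Fintype U] (T : SimpleGraph U) (h : T.IsTree) : (star T).IsTree := by
  classical
  have hc := star_connected T h.connected
  refine (isTree_iff_connected_and_card).2 ⟨hc, le_antisymm ?_ ?_⟩
  · have h1 := (isTree_iff_connected_and_card.1 h).2
    have h2 : (star T).edgeSet ⊆ (Sym2.map Sum.inl '' T.edgeSet) ∪
        Set.range (fun u : U => s((Sum.inl u : U ⊕ U), Sum.inr u)) := by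
      intro e
      induction e with
      | h a b =>
        intro hab
        rcases a with u | u <;> rcases b with v | v
        · left
          exact ⟨s(u, v), hab, rfl⟩
        · right
          have : u = v := hab
          exact ⟨u, by rw [this]⟩
        · right
          have : u = v := hab
          exact ⟨u, by rw [this]; exact Sym2.eq_swap⟩
        · exact absurd hab id
    have h3 := Set.ncard_le_ncard h2 (Set.toFinite _)
    have h4 := Set.ncard_union_le (Sym2.map (Sum.inl : U → U ⊕ U) '' T.edgeSet)
      (Set.range (fun u : U => s((Sum.inl u : U ⊕ U), Sum.inr u)))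
    have h5 := Set.ncard_image_le (s := T.edgeSet) (f := Sym2.map (Sum.inl : U → U ⊕ U))
      (Set.toFinite _)
    have h6 : (Set.range (fun u : U => s((Sum.inl u : U ⊕ U), Sum.inr u))).ncard ≤ Nat.card U := by
      rw [← Set.image_univ]
      refine (Set.ncard_image_le (Set.toFinite _)).trans ?_
      rw [Set.ncard_univ]
    rw [Nat.card_coe_set_eq] at h1 ⊢
    rw [Nat.card_sum]
    omega
  · have := hc.card_vert_le_card_edgeSet_add_one
    simpa using this

lemma star_wellCovered {U : Type} [Fintype U] (T : SimpleGraph U) : WellCovered (star T) := by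
  classical
  have key : ∀ s : Finset (U ⊕ U),
      Maximal (fun u : Finset (U ⊕ U) => (star T).IsIndepSet (u : Set (U ⊕ U))) s →
      s.card = Fintype.card U := by
    intro s hs
    have h1 : ∀ u : U, ¬ (Sum.inl u ∈ s ∧ Sum.inr u ∈ s) := by
      rintro u ⟨h1, h2⟩
      exact hs.1 (x := Sum.inl u) (by simpa using h1) (y := Sum.inr u) (by simpa using h2)
        (by simp) rfl
    have h2 : ∀ u : U, Sum.inl u ∈ s ∨ Sum.inr u ∈ s := by
      intro u
      by_contra hcon
      push Not at hcon
      have h3 : (star T).IsIndepSet ((insert (Sum.inr u) s : Finset (U ⊕ U)) : Set (U ⊕ U)) := by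
        intro a ha b hb hab hadj
        simp only [Finset.coe_insert, Set.mem_insert_iff, Finset.mem_coe] at ha hb
        rcases ha with rfl | ha <;> rcases hb with rfl | hb
        · exact hab rfl
        · rcases b with v | v
          · have : u = v := hadj
            exact hcon.1 (this ▸ hb)
          · exact hadj
        · rcases a with v | v
          · have : v = u := hadj
            exact hcon.1 (this ▸ ha)
          · exact hadj
        · exact hs.1 (by simpa using ha) (by simpa using hb) hab hadj
      have h4 := hs.2 h3 (Finset.subset_insert _ _)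
      exact hcon.2 (h4 (Finset.mem_insert_self _ _))
    have h3 : s.toRight = (s.toLeft)ᶜ := by
      ext u
      simp only [Finset.mem_toRight, Finset.mem_compl, Finset.mem_toLeft]
      have := h1 u
      have := h2 u
      tauto
    rw [← Finset.card_toLeft_add_card_toRight, h3, Finset.card_add_card_compl]
  intro s t hs ht
  rw [key s hs, key t ht]

lemma star_indep {U : Type} (T : SimpleGraph U) (I J : Finset U) :
    (star T).IsIndepSet ((I.disjSum J : Finset (U ⊕ U)) : Set (U ⊕ U)) ↔
      T.IsIndepSet (I : Set U) ∧ Disjoint I J := by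
  classical
  constructor
  · intro h
    refine ⟨?_, ?_⟩
    · intro u hu v hv huv hadj
      exact h (x := Sum.inl u) (by simpa using hu) (y := Sum.inl v) (by simpa using hv)
        (by simpa using huv) hadj
    · rw [Finset.disjoint_left]
      intro u hu hv
      exact h (x := Sum.inl u) (by simpa using hu) (y := Sum.inr u) (by simpa using hv)
        (by simp) rfl
  · rintro ⟨h1, h2⟩
    rw [Finset.disjoint_left] at h2
    rintro (u | u) hu (v | v) hv huv hadj
    · simp at hu hv
      exact h1 hu hv (by simpa using huv) hadj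
    · simp at hu hv
      have : u = v := hadj
      exact h2 hu (this ▸ hv)
    · simp at hu hv
      have : u = v := hadj
      exact h2 hv (this ▸ hu)
    · exact hadj

lemma star_eval {U : Type} [Fintype U] (T : SimpleGraph U) (x : ℂ) (hx : 1 + x ≠ 0) :
    indepEval (star T) x = (1 + x) ^ Fintype.card U * indepEval T (x / (1 + x)) := by
  classical
  unfold indepEval
  rw [sum_disj, Finset.mul_sum]
  refine Finset.sum_congr rfl fun I _ => ?_
  simp only [star_indep, Finset.card_disjSum, pow_add]
  by_cases h1 : T.IsIndepSet (I : Set U)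
  · simp only [h1, true_and, if_true]
    have h2 : ∑ J : Finset U, (if Disjoint I J then x ^ I.card * x ^ J.card else 0) =
        x ^ I.card * ∑ J ∈ (Iᶜ).powerset, x ^ J.card := by
      rw [Finset.mul_sum, ← Finset.sum_filter]
      refine Finset.sum_congr ?_ fun _ _ => rfl
      ext J
      simp only [Finset.mem_filter, Finset.mem_univ, true_and, Finset.mem_powerset]
      rw [Finset.subset_compl_comm, Finset.subset_compl_iff_disjoint_right]
    rw [h2]
    have h3 : ∑ J ∈ (Iᶜ).powerset, x ^ J.card = (1 + x) ^ (Iᶜ).card := by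
      rw [add_comm, Finset.sum_pow_mul_eq_add_pow x 1 (Iᶜ) |>.symm]
      refine Finset.sum_congr rfl fun _ _ => by simp
    rw [h3, Finset.card_compl, div_pow]
    have h4 : I.card ≤ Fintype.card U := Finset.card_le_univ I
    field_simp
    rw [mul_assoc, ← pow_add, Nat.sub_add_cancel h4]
    
  · simp [h1]

lemma Piece.final {N : ℕ} {A B : ℂ → ℂ} (h : Piece N A B) (x : ℂ) (hx : 1 + x ≠ 0)
    (h0 : A (x / (1 + x)) + B (x / (1 + x)) = 0) :
    ∃ (V : Type) (_ : Fintype V) (G : SimpleGraph V), G.IsTree ∧ WellCovered G ∧
      Fintype.card V = 2 * N ∧ indepEval G x = 0 := by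
  obtain ⟨U, _, T, r, h1, h2, h3, h4⟩ := h
  refine ⟨U ⊕ U, inferInstance, star T, star_isTree T h1, star_wellCovered T,
    by simp [h2]; ring, ?_⟩
  rw [star_eval T x hx, ← AA_add_BB T r, h3, h4, h0, mul_zero]

end Pool.Agent.WCT
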